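import Pool.Agent.H73.SMD.Stmts

set_option autoImplicit false

open Set Filter Topology MeasureTheory Metric

namespace Pool.SMD

open Pool.PHS Pool.LPC

lemma poi_ne (u : ℂ) (hu : ‖u‖ < 1 + 1 / 100) : (1 - 9 / 10 * u : ℂ) ≠ 0 := by
  intro h
  have h1 : u = 10 / 9 := by
    have : (9 / 10 : ℂ) * u = 1 := by linear_combination -h
    linear_combination (10 / 9 : ℂ) * this
  rw [h1] at hu
  have h2 : ‖(10 / 9 : ℂ)‖ = 10 / 9 := by
    rw [norm_div]; norm_num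
  rw [h2] at hu
  norm_num at hu

theorem POI_thm : POIStmt := by
  refine ⟨fun u => (1 + 9 / 10 * u) / (1 - 9 / 10 * u) - 1 / 2, ?_, ?_, ?_, ?_⟩
  · intro u hu
    have hu' : ‖u‖ < 1 + 1 / 100 := by simpa using hu
    have hne := poi_ne u hu'
    apply DifferentiableAt.differentiableWithinAt
    apply DifferentiableAt.sub _ (differentiableAt_const _)
    exact DifferentiableAt.div (c := fun u : ℂ => 1 + 9 / 10 * u)
      (d := fun u : ℂ => 1 - 9 / 10 * u) (by fun_prop) (by fun_prop) hne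
  · intro u hu
    have hu' : ‖u‖ < 1 + 1 / 100 := by simpa using hu
    have hne := poi_ne u hu'
    have h9 : ‖(9 / 10 * u : ℂ)‖ = 9 / 10 * ‖u‖ := by
      rw [norm_mul, norm_div]; norm_num
    have h1 : ‖(1 + 9 / 10 * u : ℂ)‖ ≤ 1 + 9 / 10 * ‖u‖ := by
      calc ‖(1 + 9 / 10 * u : ℂ)‖ ≤ ‖(1 : ℂ)‖ + ‖(9 / 10 * u : ℂ)‖ := norm_add_le _ _
        _ = _ := by rw [h9, norm_one]
    have h2 : 1 - 9 / 10 * ‖u‖ ≤ ‖(1 - 9 / 10 * u : ℂ)‖ := by
      have := norm_sub_norm_le (1 : ℂ) (9 / 10 * u)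
      rw [h9, norm_one] at this
      exact this
    have h3 : ‖(1 + 9 / 10 * u) / (1 - 9 / 10 * u : ℂ)‖ ≤ 43 / 2 := by
      rw [norm_div, div_le_iff₀ (norm_pos_iff.mpr hne)]
      nlinarith
    have h4 : ‖(1 / 2 : ℂ)‖ = 1 / 2 := by
      rw [norm_div]; norm_num
    calc ‖(1 + 9 / 10 * u) / (1 - 9 / 10 * u) - 1 / 2‖
        ≤ ‖(1 + 9 / 10 * u) / (1 - 9 / 10 * u : ℂ)‖ + ‖(1 / 2 : ℂ)‖ := norm_sub_le _ _
      _ ≤ 43 / 2 + 1 / 2 := by rw [h4]; linarith
      _ = 22 := by norm_num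
  · norm_num
  · intro u h1 h2 h3
    have hne := poi_ne u h2
    have hsq : ‖u‖ ^ 2 = u.re * u.re + u.im * u.im := by
      rw [Complex.sq_norm, Complex.normSq_apply]
    have hre : ((1 + 9 / 10 * u : ℂ)).re = 1 + 9 / 10 * u.re := by
      simp [Complex.mul_re]
    have him : ((1 + 9 / 10 * u : ℂ)).im = 9 / 10 * u.im := by
      simp [Complex.mul_im]
    have hre' : ((1 - 9 / 10 * u : ℂ)).re = 1 - 9 / 10 * u.re := by
      simp [Complex.mul_re]
    have him' : ((1 - 9 / 10 * u : ℂ)).im = -(9 / 10 * u.im) := by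
      simp [Complex.mul_im]
    have hN : Complex.normSq (1 - 9 / 10 * u : ℂ) =
        (1 - 9 / 10 * u.re) * (1 - 9 / 10 * u.re) + (9 / 10 * u.im) * (9 / 10 * u.im) := by
      rw [Complex.normSq_apply, hre', him']; ring
    have hNpos : 0 < Complex.normSq (1 - 9 / 10 * u : ℂ) := Complex.normSq_pos.mpr hne
    have hmain : ((1 + 9 / 10 * u) / (1 - 9 / 10 * u : ℂ)).re ≤ 3 / 8 := by
      rw [Complex.div_re, hre, him, hre', him', ← add_div, div_le_iff₀ hNpos, hN]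
      nlinarith [norm_nonneg u]
    have : ((1 + 9 / 10 * u) / (1 - 9 / 10 * u : ℂ) - 1 / 2).re =
        ((1 + 9 / 10 * u) / (1 - 9 / 10 * u : ℂ)).re - 1 / 2 := by
      rw [Complex.sub_re]; norm_num
    show ((1 + 9 / 10 * u) / (1 - 9 / 10 * u : ℂ) - 1 / 2).re ≤ -(1 / 8)
    rw [this]; linarith

end Pool.SMD
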