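import Pool.Agent.H73.SMD.Stmts

set_option autoImplicit false

open Set Filter Topology MeasureTheory Metric

namespace Pool.SMD

open Pool.PHS Pool.LPC

lemma fin_small (l : List ℝ) (h : ∀ a ∈ l, 0 < a) : ∃ u : ℝ, 0 < u ∧ ∀ a ∈ l, u < a := by
  induction l with
  | nil => exact ⟨1, one_pos, by simp⟩
  | cons b l ih =>
    obtain ⟨u, hu, hu'⟩ := ih fun a ha => h a (List.mem_cons_of_mem _ ha)
    have hb := h b List.mem_cons_self
    refine ⟨min u (b / 2), lt_min hu (by linarith), ?_⟩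
    intro a ha
    rcases List.mem_cons.mp ha with rfl | ha
    · exact lt_of_le_of_lt (min_le_right _ _) (by linarith)
    · exact lt_of_le_of_lt (min_le_left _ _) (hu' a ha)

/-- the map `E` near a point -/
lemma fin_deriv (φ : ℂ → ℂ) (G : ℂ × ℂ → Cn 2) (δ : ℝ) (hφ : DifferentiableOn ℂ φ (ball 0 (1 + 1 / 100)))
    (hG : DifferentiableOn ℂ G (BD δ)) (hBD : IsOpen (BD δ)) (p : ℂ × ℂ)
    (hp1 : p.1 ∈ ball (0 : ℂ) (1 + 1 / 100)) (hp : (p.1, gr φ p.1 + p.2) ∈ BD δ) :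
    ∃ g' : ℂ, HasFDerivAt (fun q : ℂ × ℂ => G (q.1, gr φ q.1 + q.2))
      ((fderiv ℂ G (p.1, gr φ p.1 + p.2)).comp
        ((ContinuousLinearMap.fst ℂ ℂ ℂ).prod
          (g' • ContinuousLinearMap.fst ℂ ℂ ℂ + ContinuousLinearMap.snd ℂ ℂ ℂ))) p := by
  have hφd : DifferentiableAt ℂ φ p.1 := hφ.differentiableAt (isOpen_ball.mem_nhds hp1)
  have hgr : HasDerivAt (gr φ) (deriv φ p.1 / 88) p.1 := by
    have := (hφd.hasDerivAt.div_const 88).const_add (-1 : ℂ)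
    exact this
  have hGd : HasFDerivAt G (fderiv ℂ G (p.1, gr φ p.1 + p.2)) (p.1, gr φ p.1 + p.2) :=
    (hG.differentiableAt (hBD.mem_nhds hp)).hasFDerivAt
  refine ⟨deriv φ p.1 / 88, ?_⟩
  have h1 : HasFDerivAt (fun q : ℂ × ℂ => q.1) (ContinuousLinearMap.fst ℂ ℂ ℂ) p := hasFDerivAt_fst
  have h2 : HasFDerivAt (fun q : ℂ × ℂ => q.2) (ContinuousLinearMap.snd ℂ ℂ ℂ) p := hasFDerivAt_snd
  have h3 : HasFDerivAt (fun q : ℂ × ℂ => gr φ q.1)
      ((deriv φ p.1 / 88) • ContinuousLinearMap.fst ℂ ℂ ℂ) p := by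
    have := hgr.comp_hasFDerivAt p h1
    exact this
  have h4 := h1.prodMk (h3.add h2)
  exact HasFDerivAt.comp (g := G) (f := fun q : ℂ × ℂ => (q.1, gr φ q.1 + q.2)) p hGd h4

lemma fin_rank (φ : ℂ → ℂ) (G : ℂ × ℂ → Cn 2) (δ : ℝ)
    (hφ : DifferentiableOn ℂ φ (ball 0 (1 + 1 / 100)))
    (hG : DifferentiableOn ℂ G (BD δ)) (hBD : IsOpen (BD δ)) (hR : RankOne G (BD δ)) (U : Set (ℂ × ℂ))
    (hU : ∀ p ∈ U, p.1 ∈ ball (0 : ℂ) (1 + 1 / 100) ∧ (p.1, gr φ p.1 + p.2) ∈ BD δ) :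
    DifferentiableOn ℂ (fun q : ℂ × ℂ => G (q.1, gr φ q.1 + q.2)) U ∧
      RankOne (fun q : ℂ × ℂ => G (q.1, gr φ q.1 + q.2)) U := by
  constructor
  · intro p hp
    obtain ⟨g', hg⟩ := fin_deriv φ G δ hφ hG hBD p (hU p hp).1 (hU p hp).2
    exact hg.differentiableAt.differentiableWithinAt
  · intro p hp i l
    obtain ⟨g', hg⟩ := fin_deriv φ G δ hφ hG hBD p (hU p hp).1 (hU p hp).2
    have hr := hR _ (hU p hp).2 i l
    have e1 : pz (fun q : ℂ × ℂ => G (q.1, gr φ q.1 + q.2)) p =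
        pz G (p.1, gr φ p.1 + p.2) + g' • pw G (p.1, gr φ p.1 + p.2) := by
      unfold pz pw
      rw [hg.fderiv]
      have : ((1 : ℂ), g') = ((1 : ℂ), (0 : ℂ)) + g' • ((0 : ℂ), (1 : ℂ)) := by
        ext <;> simp
      simp only [ContinuousLinearMap.comp_apply, ContinuousLinearMap.prod_apply,
        ContinuousLinearMap.add_apply, ContinuousLinearMap.smul_apply,
        ContinuousLinearMap.coe_fst', ContinuousLinearMap.coe_snd', smul_eq_mul, mul_one, add_zero]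
      rw [this, map_add, map_smul]
    have e2 : pw (fun q : ℂ × ℂ => G (q.1, gr φ q.1 + q.2)) p = pw G (p.1, gr φ p.1 + p.2) := by
      unfold pw
      rw [hg.fderiv]
      simp
    rw [e1, e2]
    simp only [Pi.add_apply, Pi.smul_apply, smul_eq_mul]
    linear_combination hr

lemma fin_BD (δ : ℝ) : IsOpen (BD δ) := by
  have h1 : IsOpen {p : ℂ × ℂ | ‖p.1‖ < 1 + δ} := isOpen_lt (by fun_prop) continuous_const
  have h2 : IsOpen {p : ℂ × ℂ | ‖p.2‖ < 1 + δ} := isOpen_lt (by fun_prop) continuous_const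
  exact h1.inter h2

/-- Lipschitz bound in the second variable -/
lemma fin_lip (E : ℂ × ℂ → Cn 2) (R : ℝ) (hR : 0 < R)
    (hE : DifferentiableOn ℂ E (ball 0 R ×ˢ ball 0 R)) :
    ∃ R₂ Λ : ℝ, 0 < R₂ ∧ R₂ ≤ R ∧ 0 < Λ ∧ ∀ u ω : ℂ, ‖u‖ < R₂ → ‖ω‖ < R₂ →
      ‖E (u, ω) - E (u, 0)‖ ≤ Λ * ‖ω‖ := by
  have ho : IsOpen (ball (0 : ℂ) R ×ˢ ball (0 : ℂ) R) := isOpen_ball.prod isOpen_ball
  have h0 : ((0 : ℂ), (0 : ℂ)) ∈ ball (0 : ℂ) R ×ˢ ball (0 : ℂ) R :=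
    ⟨mem_ball_self hR, mem_ball_self hR⟩
  have hc : ContinuousAt E (0, 0) := (hE.differentiableAt (ho.mem_nhds h0)).continuousAt
  obtain ⟨R₂, hR₂, hb⟩ := Metric.continuousAt_iff.mp hc 1 one_pos
  have key : ∀ u ω : ℂ, ‖u‖ < min R₂ R → ‖ω‖ < min R₂ R → dist (E (u, ω)) (E (0, 0)) < 1 := by
    intro u ω hu hω
    apply hb
    rw [Prod.dist_eq, max_lt_iff]
    simp only [dist_zero_right]
    exact ⟨lt_of_lt_of_le hu (min_le_left _ _), lt_of_lt_of_le hω (min_le_left _ _)⟩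
  refine ⟨min R₂ R, 2 / min R₂ R, lt_min hR₂ hR, min_le_right _ _, by positivity, ?_⟩
  intro u ω hu hω
  have hpos : 0 < min R₂ R := lt_min hR₂ hR
  have hd : DifferentiableOn ℂ (fun w : ℂ => E (u, w)) (ball 0 (min R₂ R)) := by
    intro w hw
    have hm : (u, w) ∈ ball (0 : ℂ) R ×ˢ ball (0 : ℂ) R := by
      refine ⟨?_, ?_⟩
      · rw [mem_ball_zero_iff]; exact lt_of_lt_of_le hu (min_le_right _ _)
      · rw [mem_ball_zero_iff] at hw ⊢; exact lt_of_lt_of_le hw (min_le_right _ _)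
    have h1 : DifferentiableAt ℂ E (u, w) := hE.differentiableAt (ho.mem_nhds hm)
    have h2 : DifferentiableAt ℂ (fun w : ℂ => (u, w)) w := by fun_prop
    exact (DifferentiableAt.comp (g := E) (f := fun w : ℂ => (u, w)) w h1 h2).differentiableWithinAt
  have hmaps : MapsTo (fun w : ℂ => E (u, w)) (ball 0 (min R₂ R)) (ball (E (u, 0)) 2) := by
    intro w hw
    rw [mem_ball_zero_iff] at hw
    have a1 := key u w hu hw
    have a2 := key u 0 hu (by simpa using hpos)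
    rw [mem_ball]
    calc dist (E (u, w)) (E (u, 0)) ≤ dist (E (u, w)) (E (0, 0)) + dist (E (u, 0)) (E (0, 0)) :=
          dist_triangle_right _ _ _
      _ < 2 := by linarith
  have := Complex.dist_le_div_mul_dist_of_mapsTo_ball hd (hmaps.mono_right ball_subset_closedBall)
    (z := ω)
    (by rw [mem_ball_zero_iff]; exact hω)
  rw [dist_eq_norm, dist_zero_right] at this
  exact this

theorem FIN_thm (h1 : ORDStmt) (h2 : TANStmt) (h3 : CNEStmt) (h4 : LEVStmt) : FINStmt := by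
  intro r x ν ψ φ ρ ε δ κ G hr hx hν hφ hψ hψ0 hle hsec hcase hρ hρ1 hε hδ hδ1 hκ hG hGR hGg hGr
  have hrc : Continuous r := hr.continuous
  -- order and final property
  have hord : ∃ (m : ℕ) (c C κ₁ : ℝ), 1 ≤ m ∧ 0 < c ∧ 0 < C ∧ 0 < κ₁ ∧ κ₁ ≤ 1 ∧
      (∀ u ∈ ball (0 : ℂ) κ₁, c * ‖u‖ ^ m ≤ ‖ψ u - ψ 0‖ ∧ ‖ψ u - ψ 0‖ ≤ C * ‖u‖ ^ m) ∧
      ∃ θ : ℝ, 0 < θ ∧ ∀ (u₀ : ℝ) (u' : ℂ), 0 < u₀ → u₀ < κ₁ → ‖u'‖ < κ₁ →
        ‖ψ ((ρ : ℂ) * u') - ψ ((ρ : ℂ) * (u₀ : ℂ))‖ ≤ θ * u₀ ^ m → r (ψ ((ρ : ℂ) * u')) < 0 := by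
    rcases hcase with hd | hB
    · obtain ⟨c, C, κ₀, hc, hC, hκ₀, hb⟩ := (h1 2 ψ hψ).2 hd
      refine ⟨1, c, C, min κ₀ 1, le_rfl, hc, hC, lt_min hκ₀ one_pos, min_le_right _ _, ?_, ?_⟩
      · intro u hu
        rw [mem_ball_zero_iff] at hu
        have hu' : u ∈ ball (0 : ℂ) κ₀ := by
          rw [mem_ball_zero_iff]; exact lt_of_lt_of_le hu (min_le_left _ _)
        have := hb u hu' 0 (mem_ball_self hκ₀)
        simpa using this
      · refine ⟨c * ρ / 10, by positivity, ?_⟩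
        intro u₀ u' hu₀ hu₀' hu' hn
        have e1 : ‖(ρ : ℂ) * u'‖ = ρ * ‖u'‖ := by
          rw [norm_mul, Complex.norm_real, Real.norm_of_nonneg hρ.le]
        have e2 : ‖(ρ : ℂ) * (u₀ : ℂ)‖ = ρ * u₀ := by
          rw [norm_mul, Complex.norm_real, Complex.norm_real, Real.norm_of_nonneg hρ.le,
            Real.norm_of_nonneg hu₀.le]
        have hm : min κ₀ 1 ≤ κ₀ := min_le_left _ _
        have hm1 : min κ₀ 1 ≤ 1 := min_le_right _ _
        have b1 : (ρ : ℂ) * u' ∈ ball (0 : ℂ) κ₀ := by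
          rw [mem_ball_zero_iff, e1]
          nlinarith [norm_nonneg u']
        have b2 : (ρ : ℂ) * (u₀ : ℂ) ∈ ball (0 : ℂ) κ₀ := by
          rw [mem_ball_zero_iff, e2]
          nlinarith
        have h5 := (hb _ b1 _ b2).1
        have e3 : ‖(ρ : ℂ) * u' - (ρ : ℂ) * (u₀ : ℂ)‖ = ρ * ‖u' - u₀‖ := by
          rw [← mul_sub, norm_mul, Complex.norm_real, Real.norm_of_nonneg hρ.le]
        rw [e3] at h5
        have h6 : ‖u' - u₀‖ ≤ u₀ / 10 := by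
          have h7 : c * (ρ * ‖u' - u₀‖) ≤ c * ρ / 10 * u₀ ^ 1 := h5.trans hn
          have h8 : 0 < c * ρ := by positivity
          by_contra hcon
          rw [not_le] at hcon
          nlinarith [mul_lt_mul_of_pos_left hcon h8]
        have h7 : ‖u'‖ ≤ 11 / 10 * u₀ := by
          calc ‖u'‖ = ‖(u' - u₀) + u₀‖ := by rw [sub_add_cancel]
            _ ≤ ‖u' - u₀‖ + ‖(u₀ : ℂ)‖ := norm_add_le _ _
            _ ≤ 11 / 10 * u₀ := by
              rw [Complex.norm_real, Real.norm_of_nonneg hu₀.le]; linarith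
        have h8 : 9 / 10 * u₀ ≤ u'.re := by
          have := Complex.abs_re_le_norm (u' - u₀)
          rw [Complex.sub_re, Complex.ofReal_re] at this
          have := (abs_le.mp (this.trans h6)).1
          linarith
        apply hsec
        · rw [mem_ball_zero_iff, e1]
          nlinarith [norm_nonneg u']
        · rw [e1, Complex.re_ofReal_mul]
          nlinarith
    · have hne : ¬ ∀ᶠ u in 𝓝 (0 : ℂ), ψ u = ψ 0 := by
        intro hev
        have h5 : ∀ᶠ u in 𝓝[≠] (0 : ℂ), ψ u = ψ 0 ∧ u ∈ ball (0 : ℂ) 2 ∧ u ≠ 0 :=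
          (hev.filter_mono nhdsWithin_le_nhds).and (Filter.Eventually.and
            (nhdsWithin_le_nhds (ball_mem_nhds (0 : ℂ) two_pos)) eventually_mem_nhdsWithin)
        obtain ⟨u, hu, hu2, hu0⟩ := h5.exists
        have := hB u hu2 hu0
        rw [hu, hψ0, hx] at this
        exact lt_irrefl _ this
      obtain ⟨m, c, C, κ₀, hm, hc, hC, hκ₀, hb⟩ := (h1 2 ψ hψ).1 hne
      refine ⟨m, c, C, min κ₀ 1, hm, hc, hC, lt_min hκ₀ one_pos, min_le_right _ _, ?_, ?_⟩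
      · intro u hu
        rw [mem_ball_zero_iff] at hu
        apply hb
        rw [mem_ball_zero_iff]; exact lt_of_lt_of_le hu (min_le_left _ _)
      · refine ⟨c * ρ ^ m / 2, by positivity, ?_⟩
        intro u₀ u' hu₀ hu₀' hu' hn
        have e1 : ‖(ρ : ℂ) * u'‖ = ρ * ‖u'‖ := by
          rw [norm_mul, Complex.norm_real, Real.norm_of_nonneg hρ.le]
        have e2 : ‖(ρ : ℂ) * (u₀ : ℂ)‖ = ρ * u₀ := by
          rw [norm_mul, Complex.norm_real, Complex.norm_real, Real.norm_of_nonneg hρ.le,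
            Real.norm_of_nonneg hu₀.le]
        have hm0 : min κ₀ 1 ≤ κ₀ := min_le_left _ _
        have hm1 : min κ₀ 1 ≤ 1 := min_le_right _ _
        have b2 : (ρ : ℂ) * (u₀ : ℂ) ∈ ball (0 : ℂ) κ₀ := by
          rw [mem_ball_zero_iff, e2]
          nlinarith
        have h5 := (hb _ b2).1
        have hu0 : (ρ : ℂ) * u' ≠ 0 := by
          intro h0
          rw [h0] at hn
          rw [norm_sub_rev] at hn
          rw [e2, mul_pow] at h5
          have : 0 < c * ρ ^ m * u₀ ^ m := by positivity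
          nlinarith
        apply hB _ _ hu0
        rw [mem_ball_zero_iff, e1]
        nlinarith [norm_nonneg u']
  obtain ⟨m, c, C, κ₁, hm, hc, hC, hκ₁, hκ₁1, hb, θ, hθ, hfp⟩ := hord
  -- the neighbourhood
  have hφc : ContinuousAt (gr φ) 0 := by
    have hφd : DifferentiableAt ℂ φ 0 :=
      hφ.hol.differentiableAt (isOpen_ball.mem_nhds (mem_ball_self (by norm_num)))
    exact ((hφd.div_const 88).const_add (-1 : ℂ)).continuousAt
  have hgr0 : ‖gr φ 0‖ < 1 := by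
    unfold gr
    rw [hφ.zero]
    have : (-1 + 1 / 2 / 88 : ℂ) = ((-(175 / 176) : ℝ) : ℂ) := by push_cast; norm_num
    rw [this, Complex.norm_real, Real.norm_eq_abs]
    norm_num [abs_of_neg]
  have hev : ∀ᶠ u in 𝓝 (0 : ℂ), ‖gr φ u‖ < 1 :=
    (hφc.norm.eventually_lt continuousAt_const hgr0)
  obtain ⟨R₀, hR₀, hR₀'⟩ := Metric.eventually_nhds_iff_ball.mp hev
  obtain ⟨R, hR, hRl⟩ := fin_small [R₀, δ, κ, κ₁, 1 / 100]
    (by simp only [List.mem_cons, List.not_mem_nil, or_false]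
        rintro a (rfl | rfl | rfl | rfl | rfl) <;> first | assumption | norm_num)
  have hRR₀ : R < R₀ := hRl _ (by simp)
  have hRδ : R < δ := hRl _ (by simp)
  have hRκ : R < κ := hRl _ (by simp)
  have hRκ₁ : R < κ₁ := hRl _ (by simp)
  have hR100 : R < 1 / 100 := hRl _ (by simp)
  have hBDo := fin_BD δ
  have hU : ∀ p ∈ ball (0 : ℂ) R ×ˢ ball (0 : ℂ) R,
      p.1 ∈ ball (0 : ℂ) (1 + 1 / 100) ∧ (p.1, gr φ p.1 + p.2) ∈ BD δ := by
    rintro p ⟨hp1, hp2⟩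
    rw [mem_ball_zero_iff] at hp1 hp2
    refine ⟨by rw [mem_ball_zero_iff]; linarith, ?_, ?_⟩
    · show ‖p.1‖ < 1 + δ
      linarith
    · show ‖gr φ p.1 + p.2‖ < 1 + δ
      have := hR₀' p.1 (by rw [mem_ball_zero_iff]; linarith)
      have := norm_add_le (gr φ p.1) p.2
      linarith
  obtain ⟨hEd, hER⟩ := fin_rank φ G δ hφ.hol hG hBDo hGR _ hU
  set E : ℂ × ℂ → Cn 2 := fun q => G (q.1, gr φ q.1 + q.2) with hEdef
  have hE0 : ∀ u : ℂ, ‖u‖ < R → E (u, 0) = ψ ((ρ : ℂ) * u) := by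
    intro u hu
    show G (u, gr φ u + 0) = _
    rw [add_zero]
    exact (hGg u (by rw [mem_ball_zero_iff]; linarith)).2
  have nρ : ∀ u : ℂ, ‖(ρ : ℂ) * u‖ = ρ * ‖u‖ := fun u => by
    rw [norm_mul, Complex.norm_real, Real.norm_of_nonneg hρ.le]
  have hEo : ∀ u ∈ ball (0 : ℂ) R, (c * ρ ^ m) * ‖u‖ ^ m ≤ ‖E (u, 0) - E (0, 0)‖ ∧
      ‖E (u, 0) - E (0, 0)‖ ≤ (C * ρ ^ m) * ‖u‖ ^ m := by
    intro u hu
    rw [mem_ball_zero_iff] at hu
    rw [hE0 u hu, hE0 0 (by simpa using hR), mul_zero]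
    have := hb ((ρ : ℂ) * u) (by rw [mem_ball_zero_iff, nρ]; nlinarith [norm_nonneg u])
    rw [nρ, mul_pow] at this
    constructor
    · linarith [this.1]
    · linarith [this.2]
  obtain ⟨κL, L, hκL, hL, hlev⟩ := h4 2 m R (c * ρ ^ m) (C * ρ ^ m) E hm hR (by positivity)
    (by positivity) hEd hER hEo
  obtain ⟨R₂, Λ, hR₂, hR₂R, hΛ, hlip⟩ := fin_lip E R hR hEd
  obtain ⟨κN, hκN, -, hcne⟩ := h3 r x ν hr hν 1 one_pos
  -- choice of η
  obtain ⟨η, hη, hηl⟩ := fin_small [44 * ε * κL, 44 * ε * θ / Λ]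
    (by simp only [List.mem_cons, List.not_mem_nil, or_false]
        rintro a (rfl | rfl) <;> positivity)
  have hη1 : η < 44 * ε * κL := hηl _ (by simp)
  have hη2 : η < 44 * ε * θ / Λ := hηl _ (by simp)
  have hη3 : η * Λ < 44 * ε * θ := (lt_div_iff₀ hΛ).mp hη2
  obtain ⟨κT, hκT, htan⟩ := h2 r x ψ m C κ₁ hr hx hψ hψ0 hle hm hκ₁
    (fun u hu => by have := (hb u hu).2; rwa [hψ0] at this) η hη
  -- choice of u₀
  obtain ⟨u₀, hu₀, hu₀l⟩ := fin_small [1, R, R₂, κL, κT, κ₁, κN / C, κN / (2 * η),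
      R₂ * (88 * ε) / (2 * η)]
    (by simp only [List.mem_cons, List.not_mem_nil, or_false]
        rintro a (rfl | rfl | rfl | rfl | rfl | rfl | rfl | rfl | rfl) <;> positivity)
  have hu1 : u₀ < 1 := hu₀l _ (by simp)
  have hu2 : u₀ < R := hu₀l _ (by simp)
  have hu3 : u₀ < R₂ := hu₀l _ (by simp)
  have hu4 : u₀ < κL := hu₀l _ (by simp)
  have hu5 : u₀ < κT := hu₀l _ (by simp)
  have hu6 : u₀ < κ₁ := hu₀l _ (by simp)
  have hu7 : u₀ < κN / C := hu₀l _ (by simp)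
  have hu8 : u₀ < κN / (2 * η) := hu₀l _ (by simp)
  have hu9 : u₀ < R₂ * (88 * ε) / (2 * η) := hu₀l _ (by simp)
  have hu7' : u₀ * C < κN := (lt_div_iff₀ hC).mp hu7
  have hu8' : u₀ * (2 * η) < κN := (lt_div_iff₀ (by positivity)).mp hu8
  have hu9' : u₀ * (2 * η) < R₂ * (88 * ε) := (lt_div_iff₀ (by positivity)).mp hu9
  have hpow : u₀ ^ m ≤ u₀ := by
    calc u₀ ^ m ≤ u₀ ^ 1 := pow_le_pow_of_le_one hu₀.le hu1.le hm
      _ = u₀ := pow_one _
  have hpow0 : 0 < u₀ ^ m := by positivity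
  have hρm : ρ ^ m ≤ 1 := pow_le_one₀ hρ.le hρ1
  have hρm0 : 0 < ρ ^ m := by positivity
  have nu₀ : ‖(u₀ : ℂ)‖ = u₀ := by rw [Complex.norm_real, Real.norm_of_nonneg hu₀.le]
  have nρu : ‖(ρ : ℂ) * (u₀ : ℂ)‖ = ρ * u₀ := by rw [nρ, nu₀]
  have hρu1 : ρ * u₀ ≤ u₀ := by nlinarith
  have hρu0 : 0 < ρ * u₀ := by positivity
  set y : Cn 2 := ψ ((ρ : ℂ) * (u₀ : ℂ)) with hy
  have hmem2 : (ρ : ℂ) * (u₀ : ℂ) ∈ ball (0 : ℂ) 2 := by
    rw [mem_ball_zero_iff, nρu]; linarith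
  have hry : r y ≤ 0 := hle _ hmem2
  have hry' : -(η * (ρ * u₀) ^ m) ≤ r y := by
    have := htan ((ρ : ℂ) * (u₀ : ℂ)) (by rw [mem_ball_zero_iff, nρu]; linarith)
    rwa [nρu] at this
  have hyx : ‖y - x‖ ≤ κN := by
    have := (hb ((ρ : ℂ) * (u₀ : ℂ)) (by rw [mem_ball_zero_iff, nρu]; linarith)).2
    rw [nρu, hψ0, mul_pow] at this
    have h5 : C * (ρ ^ m * u₀ ^ m) ≤ C * (1 * u₀) := by gcongr
    linarith
  -- intermediate value
  have hb0 : 0 ≤ 2 * η * (ρ * u₀) ^ m := by positivity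
  have hρum : (ρ * u₀) ^ m ≤ u₀ ^ m := by gcongr
  have hbN : 2 * η * (ρ * u₀) ^ m ≤ κN := by
    have : 2 * η * (ρ * u₀) ^ m ≤ 2 * η * u₀ := by
      have h5 := hρum.trans hpow
      gcongr
    linarith
  have hcont : ContinuousOn (fun b : ℝ => r (y + (b : ℂ) • ν)) (Icc 0 (2 * η * (ρ * u₀) ^ m)) := by
    apply Continuous.continuousOn
    apply hrc.comp
    fun_prop
  have hIVT := intermediate_value_Icc hb0 hcont
  have h0mem : (0 : ℝ) ∈ Icc (r (y + ((0 : ℝ) : ℂ) • ν))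
      (r (y + ((2 * η * (ρ * u₀) ^ m : ℝ) : ℂ) • ν)) := by
    constructor
    · simpa using hry
    · have := hcne y (2 * η * (ρ * u₀) ^ m) hyx hb0 hbN
      linarith
  obtain ⟨b, ⟨hb1, hb2⟩, hb3⟩ := hIVT h0mem
  simp only at hb3
  -- the point
  set ω : ℂ := ((-(b / (88 * ε)) : ℝ) : ℂ) with hω
  have nω : ‖ω‖ = b / (88 * ε) := by
    rw [hω, Complex.norm_real, norm_neg, Real.norm_of_nonneg (by positivity)]
  have nω' : ‖ω‖ * (88 * ε) = b := by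
    rw [nω]; field_simp
  have hbu : b ≤ 2 * η * u₀ ^ m := hb2.trans (by gcongr)
  have nω1 : ‖ω‖ < R₂ := by
    have : ‖ω‖ * (88 * ε) < R₂ * (88 * ε) := by
      rw [nω']
      have : 2 * η * u₀ ^ m ≤ 2 * η * u₀ := by gcongr
      linarith
    exact lt_of_mul_lt_mul_right this (by positivity)
  have nω2 : ‖ω‖ ≤ κL * u₀ ^ m := by
    have h5 : ‖ω‖ * (88 * ε) ≤ κL * u₀ ^ m * (88 * ε) := by
      rw [nω']
      have : 2 * η * u₀ ^ m ≤ 2 * (44 * ε * κL) * u₀ ^ m := by gcongr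
      linarith
    exact le_of_mul_le_mul_right h5 (by positivity)
  have nω3 : Λ * ‖ω‖ ≤ θ * u₀ ^ m := by
    have h5 : Λ * ‖ω‖ * (88 * ε) ≤ θ * u₀ ^ m * (88 * ε) := by
      have e : Λ * ‖ω‖ * (88 * ε) = Λ * b := by rw [mul_assoc, nω']
      rw [e]
      have h6 : Λ * b ≤ Λ * (2 * η * u₀ ^ m) := by gcongr
      have h7 : 2 * (η * Λ) * u₀ ^ m ≤ 2 * (44 * ε * θ) * u₀ ^ m := by gcongr
      linarith
    exact le_of_mul_le_mul_right h5 (by positivity)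
  have hPhi : Phi ψ φ ν ρ ε ((u₀ : ℂ), gr φ u₀ + ω) = y + (b : ℂ) • ν := by
    unfold Phi
    have e : (ε : ℂ) * (φ (u₀ : ℂ) - 88 * (1 + (gr φ (u₀ : ℂ) + ω))) = (b : ℂ) := by
      have hε' : (ε : ℂ) ≠ 0 := by exact_mod_cast hε.ne'
      rw [hω]
      unfold gr
      push_cast
      field_simp
      ring
    show ψ ((ρ : ℂ) * (u₀ : ℂ)) +
      ((ε : ℂ) * (φ (u₀ : ℂ) - 88 * (1 + (gr φ (u₀ : ℂ) + ω)))) • ν = _
    rw [e]
  have hPmem : ((u₀ : ℂ), gr φ u₀ + ω) ∈ BD δ := by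
    have := (hU ((u₀ : ℂ), ω) ⟨by rw [mem_ball_zero_iff, nu₀]; exact hu2,
      by rw [mem_ball_zero_iff]; linarith⟩).2
    exact this
  have hGP : r (E ((u₀ : ℂ), ω)) = 0 := by
    apply hGr _ hPmem
    rw [hPhi]; exact hb3
  obtain ⟨u', hu'1, hu'2, hu'3⟩ := hlev u₀ (u₀ : ℂ) ω hu₀ hu4 nu₀.le nω2
  rw [hE0 u' hu'2] at hu'3
  have hfin : r (ψ ((ρ : ℂ) * u')) < 0 := by
    apply hfp u₀ u' hu₀ hu6 (by linarith)
    rw [hu'3, ← hE0 (u₀ : ℂ) (by rw [nu₀]; exact hu2)]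
    exact (hlip (u₀ : ℂ) ω (by rw [nu₀]; exact hu3) nω1).trans nω3
  rw [hu'3, hGP] at hfin
  exact lt_irrefl _ hfin

end Pool.SMD
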